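import Pool.Agent.W428.MOT.Stm

/-!
# Project MT: the statements (ORD) and (NON)
-/

set_option autoImplicit false

namespace Pool.Agent.W440.MT

open Pool.Agent.W428.MOT

/-- (ORD) -/
theorem ord : S_Ord := by
  intro F _ P G e p he hP
  constructor
  · intro h
    have hG : ∃ l, PowerSeries.coeff l G ≠ 0 := by
      by_contra hcon
      push Not at hcon
      have : G = 0 := by
        ext k
        simpa using hcon k
      have h1 := h p le_rfl
      rw [this, zero_pow he.ne'] at h1
      simp at h1
    classical
    set l := Nat.find hG with hl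
    have hl0 : PowerSeries.coeff l G ≠ 0 := Nat.find_spec hG
    have hl1 : ∀ k < l, PowerSeries.coeff k G = 0 := by
      intro k hk
      have := Nat.find_min hG hk
      simpa using this
    obtain ⟨U, hU⟩ := PowerSeries.X_pow_dvd_iff.mpr hl1
    have hU0 : PowerSeries.coeff l G = PowerSeries.constantCoeff U := by
      rw [hU, PowerSeries.coeff_X_pow_mul']
      simp
    have hPG : P * G ^ e = PowerSeries.X ^ (l * e) * (P * U ^ e) := by
      rw [hU, mul_pow, ← pow_mul]
      ring
    have hc : PowerSeries.constantCoeff (P * U ^ e) =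
        PowerSeries.constantCoeff P * (PowerSeries.coeff l G) ^ e := by
      rw [map_mul, map_pow, hU0]
    have hle : l * e ≤ p := by
      by_contra hlt
      have h1 := h p le_rfl
      rw [hPG, PowerSeries.coeff_X_pow_mul', if_neg hlt] at h1
      simp at h1
    have h2 := h (l * e) hle
    rw [hPG, PowerSeries.coeff_X_pow_mul', if_pos le_rfl, Nat.sub_self,
      PowerSeries.coeff_zero_eq_constantCoeff_apply, hc] at h2
    have hne : PowerSeries.constantCoeff P * (PowerSeries.coeff l G) ^ e ≠ 0 :=
      mul_ne_zero hP (pow_ne_zero _ hl0)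
    by_cases hp : l * e = p
    · refine ⟨l, by rw [mul_comm]; exact hp, hl1, ?_⟩
      rw [h2, if_pos hp]
    · rw [if_neg hp] at h2
      exact absurd h2 hne
  · rintro ⟨l, hlp, hl1, h1⟩ k hk
    obtain ⟨U, hU⟩ := PowerSeries.X_pow_dvd_iff.mpr hl1
    have hU0 : PowerSeries.coeff l G = PowerSeries.constantCoeff U := by
      rw [hU, PowerSeries.coeff_X_pow_mul']
      simp
    have hPG : P * G ^ e = PowerSeries.X ^ p * (P * U ^ e) := by
      rw [hU, mul_pow, ← pow_mul, ← hlp, mul_comm l e]
      ring
    rw [hPG, PowerSeries.coeff_X_pow_mul']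
    by_cases hkp : k = p
    · subst hkp
      rw [if_pos le_rfl, if_pos rfl, Nat.sub_self, PowerSeries.coeff_zero_eq_constantCoeff_apply,
        map_mul, map_pow, ← hU0, h1]
    · rw [if_neg (by omega), if_neg hkp]

/-- (NON) -/
theorem non : S_Non := by
  intro F _ _ n r m c τ z hm hc hτ hz hg
  by_contra hcon
  push Not at hcon
  obtain ⟨j0, hj0⟩ := hτ
  set X : Fin r → F := fun j => c j * ∏ i, z i ^ m j i with hX
  have hX0 : X j0 ≠ 0 := by
    refine mul_ne_zero (hc j0) (Finset.prod_ne_zero_iff.mpr fun i _ => ?_)
    by_cases hi : m j0 i = 0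
    · rw [hi, pow_zero]; exact one_ne_zero
    · exact pow_ne_zero _ (hz i ⟨j0, hj0, hi⟩)
  have hXi : ∀ i, ∑ j ∈ τ, (m j i : F) * X j = 0 := by
    intro i
    have h0 : z i * dgbar m c τ i z = 0 := by rw [hcon i, mul_zero]
    rw [← h0, dgbar, Finset.mul_sum]
    refine Finset.sum_congr rfl fun j _ => ?_
    by_cases hj : m j i = 0
    · rw [hj]; simp
    · have : ∏ i', z i' ^ m j i' = z i * ∏ i', z i' ^ (m j i' - if i' = i then 1 else 0) := by
        classical
        rw [← Finset.mul_prod_erase _ _ (Finset.mem_univ i),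
          ← Finset.mul_prod_erase _ (fun i' => z i' ^ (m j i' - if i' = i then 1 else 0))
            (Finset.mem_univ i), ← mul_assoc]
        congr 1
        · simp only [if_true]
          rw [← pow_succ']
          congr 1
          omega
        · refine Finset.prod_congr rfl fun i' hi' => ?_
          rw [if_neg (Finset.ne_of_mem_erase hi'), Nat.sub_zero]
      simp only [hX]
      rw [this]
      ring
  obtain ⟨φ, hφ⟩ : ∃ φ : Module.Dual ℚ F, φ (X j0) ≠ 0 := by
    by_contra hno
    push Not at hno
    exact hX0 ((Module.forall_dual_apply_eq_zero_iff ℚ (X j0)).mp hno)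
  have haff := (affineIndependent_iff.mp hm) τ (fun j => φ (X j)) (by
      rw [← map_sum]
      have : ∑ j ∈ τ, X j = 0 := hg
      rw [this, map_zero])
    (by
      funext i
      rw [Finset.sum_apply]
      simp only [Pi.smul_apply, smul_eq_mul, Pi.zero_apply]
      have h1 : ∀ j ∈ τ, φ (X j) * (m j i : ℚ) = φ ((m j i : F) * X j) := by
        intro j _
        have : ((m j i : F) * X j) = (m j i : ℚ) • X j := by
          rw [Algebra.smul_def]
          simp
        rw [this, map_smul, smul_eq_mul, mul_comm]
      rw [Finset.sum_congr rfl h1, ← map_sum, hXi i, map_zero]) j0 hj0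
  exact hφ haff

end Pool.Agent.W440.MT
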